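import Pool.Agent.Lib52.NLSn.Defs

/-!
# Module F1: radial functions
-/

set_option autoImplicit false

namespace NLSn

open MeasureTheory Filter Topology Set
open scoped InnerProductSpace

section

variable {n : ℕ}

theorem F1_hasFDerivAt_norm {x : E n} (hx : x ≠ 0) :
    HasFDerivAt (fun y : E n => ‖y‖) (‖x‖⁻¹ • innerSL ℝ x) x := by
  have hx0 : 0 < ‖x‖ := norm_pos_iff.2 hx
  have h1 : HasFDerivAt (fun y : E n => ‖y‖ ^ 2) (2 • innerSL ℝ x) x :=
    (hasStrictFDerivAt_norm_sq x).hasFDerivAt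
  have h2 : HasFDerivAt (fun y : E n => √(‖y‖ ^ 2)) ((1 / (2 * √(‖x‖ ^ 2))) • (2 • innerSL ℝ x)) x :=
    h1.sqrt (by positivity)
  have e1 : (fun y : E n => √(‖y‖ ^ 2)) = fun y => ‖y‖ := by
    ext y; exact Real.sqrt_sq (norm_nonneg y)
  rw [e1, Real.sqrt_sq hx0.le] at h2
  refine h2.congr_fderiv ?_
  ext v
  simp
  field_simp

theorem F1_hasFDerivAt {U : ℝ → ℝ} {x : E n} (hx : x ≠ 0) (hU : DifferentiableAt ℝ U ‖x‖) :
    HasFDerivAt (fun y : E n => U ‖y‖) ((deriv U ‖x‖ / ‖x‖) • innerSL ℝ x) x := by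
  have h := hU.hasDerivAt.hasFDerivAt.comp x (F1_hasFDerivAt_norm hx)
  refine HasFDerivAt.congr_fderiv h ?_
  ext v
  simp
  ring

theorem stmtF1 : StmtF1 := by
  intro n _ U r0 K hr0 hU hK
  set f : E n → ℝ := fun x => U ‖x‖ with hf
  have hUd : Differentiable ℝ U := hU.differentiable (by simp)
  have hU' : ContDiff ℝ (⊤ : ℕ∞) (deriv U) := by
    exact (contDiff_infty_iff_deriv.1 hU).2
  have hU'd : Differentiable ℝ (deriv U) := hU'.differentiable (by simp)
  have hlocU : ∀ r, r < r0 → U =ᶠ[𝓝 r] fun _ => K := fun r hr => by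
    filter_upwards [Iio_mem_nhds hr] with s hs
    exact hK s (le_of_lt hs)
  have hdU0 : ∀ r, r < r0 → deriv U r = 0 := fun r hr => by
    rw [(hlocU r hr).deriv_eq]; simp
  have hddU0 : ∀ r, r < r0 → deriv (deriv U) r = 0 := fun r hr => by
    have : deriv U =ᶠ[𝓝 r] fun _ => 0 := by
      filter_upwards [Iio_mem_nhds hr] with s hs
      exact hdU0 s hs
    rw [this.deriv_eq]; simp
  have hlocf : ∀ x : E n, ‖x‖ < r0 → f =ᶠ[𝓝 x] fun _ => K := fun x hx => by
    have : ∀ᶠ y : E n in 𝓝 x, ‖y‖ < r0 := continuous_norm.continuousAt.eventually (Iio_mem_nhds hx)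
    filter_upwards [this] with y hy
    exact hK _ hy.le
  refine ⟨?_, ?_, ?_⟩
  · rw [contDiff_iff_contDiffAt]
    intro x
    by_cases hx : ‖x‖ < r0
    · exact contDiffAt_const.congr_of_eventuallyEq (hlocf x hx)
    · have hx0 : x ≠ 0 := by
        rintro rfl
        rw [norm_zero] at hx
        exact hx hr0
      exact hU.contDiffAt.comp x (contDiffAt_norm ℝ hx0)
  · intro x
    unfold lap
    simp only [iteratedFDeriv_two_apply, Matrix.cons_val_zero, Matrix.cons_val_one]
    by_cases hx : ‖x‖ < r0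
    · have h1 : fderiv ℝ f =ᶠ[𝓝 x] fun _ => 0 := by
        have : ∀ᶠ y : E n in 𝓝 x, ‖y‖ < r0 :=
          continuous_norm.continuousAt.eventually (Iio_mem_nhds hx)
        filter_upwards [this] with y hy
        rw [(hlocf y hy).fderiv_eq]; simp
      rw [h1.fderiv_eq, hddU0 _ hx, hdU0 _ hx]
      simp
    · have hx0 : x ≠ 0 := by
        rintro rfl
        rw [norm_zero] at hx
        exact hx hr0
      have hxp : 0 < ‖x‖ := norm_pos_iff.2 hx0
      set h : ℝ → ℝ := fun r => deriv U r / r with hh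
      have hhd : HasDerivAt h (deriv (deriv U) ‖x‖ / ‖x‖ - deriv U ‖x‖ / ‖x‖ ^ 2) ‖x‖ := by
        have h1 := (hU'd ‖x‖).hasDerivAt.div (hasDerivAt_id ‖x‖) hxp.ne'
        refine HasDerivAt.congr_deriv h1 ?_
        simp
        field_simp
      have h1 : fderiv ℝ f =ᶠ[𝓝 x] fun y => h ‖y‖ • innerSL ℝ y := by
        have : ∀ᶠ y : E n in 𝓝 x, y ≠ 0 := isOpen_ne.mem_nhds hx0
        filter_upwards [this] with y hy
        exact (F1_hasFDerivAt hy (hUd _)).fderiv
      have h2 : HasFDerivAt (fun y : E n => h ‖y‖) ((deriv h ‖x‖ / ‖x‖) • innerSL ℝ x) x :=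
        F1_hasFDerivAt hx0 hhd.differentiableAt
      let B : E n →L[ℝ] E n →L[ℝ] ℝ :=
        (isBoundedBilinearMap_inner (𝕜 := ℝ) (E := E n)).toContinuousLinearMap
      have hB : ∀ y, B y = innerSL ℝ y := fun y => by ext v; rfl
      have h3 : HasFDerivAt (fun y : E n => h ‖y‖ • innerSL ℝ y)
          (h ‖x‖ • B + ((deriv h ‖x‖ / ‖x‖) • innerSL ℝ x).smulRight (innerSL ℝ x)) x := by
        have h3' : HasFDerivAt (fun y : E n => h ‖y‖ • B y)
            (h ‖x‖ • B + ((deriv h ‖x‖ / ‖x‖) • innerSL ℝ x).smulRight (B x)) x :=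
          h2.smul B.hasFDerivAt
        simp only [hB] at h3'
        exact h3'
      rw [h1.fderiv_eq, h3.fderiv]
      simp only [add_apply, smul_apply, hB,
        ContinuousLinearMap.smulRight_apply, smul_eq_mul, innerSL_apply_apply]
      have h4 : ∀ i : Fin n, ⟪x, EuclideanSpace.single i (1 : ℝ)⟫_ℝ = x i := fun i => by
        simp [EuclideanSpace.inner_single_right]
      have h5 : ∀ i : Fin n, ⟪EuclideanSpace.single i (1 : ℝ), EuclideanSpace.single i (1 : ℝ)⟫_ℝ
          = 1 := fun i => by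
        simp [EuclideanSpace.inner_single_right]
      simp only [h4, h5, mul_one]
      rw [Finset.sum_add_distrib, Finset.sum_const, Finset.card_univ, Fintype.card_fin, nsmul_eq_mul]
      have h6 : ∑ i : Fin n, deriv h ‖x‖ / ‖x‖ * x i * x i = deriv h ‖x‖ * ‖x‖ := by
        have h7 : ∑ i : Fin n, x i * x i = ‖x‖ ^ 2 := by
          rw [EuclideanSpace.norm_sq_eq]
          apply Finset.sum_congr rfl
          intro i _
          rw [Real.norm_eq_abs, sq_abs, pow_two]
        simp_rw [mul_assoc]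
        rw [← Finset.mul_sum, h7]
        field_simp
      rw [h6, hhd.deriv, hh]
      field_simp
      ring
  · intro x
    by_cases hx : ‖x‖ < r0
    · rw [(hlocf x hx).fderiv_eq, hdU0 _ hx]; simp
    · have hx0 : x ≠ 0 := by
        rintro rfl
        rw [norm_zero] at hx
        exact hx hr0
      have hxp : 0 < ‖x‖ := norm_pos_iff.2 hx0
      have h1 : fderiv ℝ f x = (deriv U ‖x‖ / ‖x‖) • innerSL ℝ x := (F1_hasFDerivAt hx0 (hUd _)).fderiv
      rw [h1, norm_smul, innerSL_apply_norm, Real.norm_eq_abs, abs_div, abs_of_pos hxp,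
        div_mul_cancel₀ _ hxp.ne']

end

end NLSn
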